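import Mathlib

/-!
# A controlled strongly graded ring which is not a crossed product

The example is the Leavitt algebra of type `(1,2)` with its `ℤ`-grading. We realise the generators
as endomorphisms `S b`, `T b` (`b : Bool`) of the space of all functions `ℕ → k`, with
`T a * S b = δ_{ab}` and `∑ S b * T b = 1`; the component `R_n` is the span of all
`s μ * t ν` with words `μ`, `ν` such that `|μ| - |ν| = n`.
-/

set_option autoImplicit false

namespace Pool.Agent.Results.MP_26bbbf_al.NotCrossed

open Filter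

/-! ### Definitions -/

section defs

universe u v

variable {G : Type u} [Group G] {R : Type v} [Ring R]

/-- `R` is the (internal) direct sum of the subgroups `𝒜 g` and `𝒜 g * 𝒜 h ⊆ 𝒜 (g * h)`. -/
structure IsGrading (𝒜 : G → AddSubgroup R) : Prop where
  mul_mem : ∀ (g h : G) (a b : R), a ∈ 𝒜 g → b ∈ 𝒜 h → a * b ∈ 𝒜 (g * h)
  indep : iSupIndep 𝒜
  iSup_eq_top : ⨆ g, 𝒜 g = ⊤

/-- `R_g R_h = R_{gh}` for all `g`, `h`, where `R_g R_h` is the set of all finite sums of products. -/
def IsStrong (𝒜 : G → AddSubgroup R) : Prop :=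
  ∀ g h : G, AddSubgroup.closure {x : R | ∃ a ∈ 𝒜 g, ∃ b ∈ 𝒜 h, x = a * b} = 𝒜 (g * h)

/-- `R_H`, the sum of the components `R_h` with `h ∈ H`. -/
def part (𝒜 : G → AddSubgroup R) (H : Set G) : AddSubgroup R := ⨆ h ∈ H, 𝒜 h

/-- An `R_e`-sub-bimodule of `R`. -/
def IsSubBimodule (𝒜 : G → AddSubgroup R) (N : AddSubgroup R) : Prop :=
  ∀ a ∈ 𝒜 1, ∀ x ∈ N, a * x ∈ N ∧ x * a ∈ N

/-- An additive isomorphism between two subgroups of `R` is an isomorphism of `R_e`-bimodules. -/
def IsBimoduleIso (𝒜 : G → AddSubgroup R) {M N : AddSubgroup R} (f : M ≃+ N) : Prop :=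
  ∀ a ∈ 𝒜 1, ∀ x y : M, ((y : R) = a * x → (f y : R) = a * f x) ∧
    ((y : R) = x * a → (f y : R) = f x * a)

/-- The graded ring `R` is `G`-controlled. -/
structure IsControlled (𝒜 : G → AddSubgroup R) : Prop where
  /-- the map `H ↦ R_H` is a bijection from the power set of `G` to the set of all
  `R_e`-sub-bimodules of `R` -/
  bij : Set.BijOn (part 𝒜) Set.univ {N | IsSubBimodule 𝒜 N}
  /-- `R_S ≅ R_T` as `R_e`-bimodules only when `S = T` -/
  iso : ∀ S T : Set G, (∃ f : part 𝒜 S ≃+ part 𝒜 T, IsBimoduleIso 𝒜 f) → S = T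

/-- The graded ring `R` is a `G`-crossed product. -/
def IsCrossedProduct (𝒜 : G → AddSubgroup R) : Prop := ∀ g : G, ∃ u ∈ 𝒜 g, IsUnit u

end defs

/-! ### The generators of the Leavitt algebra -/

variable (k : Type) [Field k]

/-- the endomorphisms of the space of all functions on `ℕ` -/
abbrev E : Type := Module.End k (ℕ → k)

/-- the generator `S b` -/
def S (b : Bool) : E k where
  toFun f n := if n.bodd = b then f n.div2 else 0
  map_add' f g := by
    funext n
    change (if n.bodd = b then f n.div2 + g n.div2 else 0) =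
      (if n.bodd = b then f n.div2 else 0) + (if n.bodd = b then g n.div2 else 0)
    split_ifs
    · rfl
    · rw [add_zero]
  map_smul' c f := by
    funext n
    change (if n.bodd = b then c • f n.div2 else 0) = c • (if n.bodd = b then f n.div2 else 0)
    split_ifs
    · rfl
    · rw [smul_zero]

/-- the generator `T b` -/
def T (b : Bool) : E k where
  toFun f n := f (Nat.bit b n)
  map_add' _ _ := rfl
  map_smul' _ _ := rfl

lemma T_mul_S_self (b : Bool) : T k b * S k b = 1 := by
  ext f n
  change (if (Nat.bit b n).bodd = b then f (Nat.bit b n).div2 else 0) = f n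
  rw [Nat.bodd_bit, if_pos rfl, Nat.div2_bit]

lemma T_mul_S_ne {a b : Bool} (h : a ≠ b) : T k a * S k b = 0 := by
  ext f n
  change (if (Nat.bit a n).bodd = b then f (Nat.bit a n).div2 else 0) = 0
  rw [Nat.bodd_bit, if_neg h]

lemma sum_S_T : S k false * T k false + S k true * T k true = 1 := by
  ext f n
  change (if n.bodd = false then f (Nat.bit false n.div2) else 0) +
    (if n.bodd = true then f (Nat.bit true n.div2) else 0) = f n
  cases h : n.bodd
  · rw [if_pos rfl, if_neg (by decide), add_zero, ← h, Nat.bit_bodd_div2]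
  · rw [if_pos rfl, if_neg (by decide), zero_add, ← h, Nat.bit_bodd_div2]

/-- products of the generators `S b` -/
def s : List Bool → E k
  | [] => 1
  | b :: μ => S k b * s μ

/-- products of the generators `T b` in the opposite order -/
def t : List Bool → E k
  | [] => 1
  | b :: μ => t μ * T k b

variable {k}

@[simp] lemma s_nil : s k [] = 1 := rfl
@[simp] lemma t_nil : t k [] = 1 := rfl
lemma s_cons (b : Bool) (μ : List Bool) : s k (b :: μ) = S k b * s k μ := rfl
lemma t_cons (b : Bool) (μ : List Bool) : t k (b :: μ) = t k μ * T k b := rfl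

lemma s_append (μ ν : List Bool) : s k (μ ++ ν) = s k μ * s k ν := by
  induction μ with
  | nil => rw [List.nil_append, s_nil, one_mul]
  | cons b μ ih => rw [List.cons_append, s_cons, s_cons, ih, mul_assoc]

lemma t_append (μ ν : List Bool) : t k (μ ++ ν) = t k ν * t k μ := by
  induction μ with
  | nil => rw [List.nil_append, t_nil, mul_one]
  | cons b μ ih => rw [List.cons_append, t_cons, t_cons, ih, mul_assoc]

lemma t_cons_mul_s_cons (a b : Bool) (μ ν : List Bool) :
    t k (a :: μ) * s k (b :: ν) = if a = b then t k μ * s k ν else 0 := by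
  rw [t_cons, s_cons]
  split_ifs with h
  · subst h
    calc t k μ * T k a * (S k a * s k ν) = t k μ * (T k a * S k a) * s k ν := by
          noncomm_ring
      _ = _ := by rw [T_mul_S_self, mul_one]
  · calc t k μ * T k a * (S k b * s k ν) = t k μ * (T k a * S k b) * s k ν := by
          noncomm_ring
      _ = _ := by rw [T_mul_S_ne k h, mul_zero, zero_mul]

/-- the products `t μ * s ν` -/
lemma t_mul_s (μ ν : List Bool) : t k μ * s k ν = 0 ∨
    (∃ ρ, ν = μ ++ ρ ∧ t k μ * s k ν = s k ρ) ∨ (∃ ρ, μ = ν ++ ρ ∧ t k μ * s k ν = t k ρ) := by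
  induction μ generalizing ν with
  | nil => exact Or.inr (Or.inl ⟨ν, rfl, by rw [t_nil, one_mul]⟩)
  | cons a μ ih =>
    cases ν with
    | nil => exact Or.inr (Or.inr ⟨a :: μ, rfl, by rw [s_nil, mul_one]⟩)
    | cons b ν =>
      rw [t_cons_mul_s_cons]
      split_ifs with h
      · subst h
        rcases ih ν with h | ⟨ρ, h1, h2⟩ | ⟨ρ, h1, h2⟩
        · exact Or.inl h
        · exact Or.inr (Or.inl ⟨ρ, by rw [h1, List.cons_append], h2⟩)
        · exact Or.inr (Or.inr ⟨ρ, by rw [h1, List.cons_append], h2⟩)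
      · exact Or.inl rfl

lemma t_mul_s_self (μ : List Bool) : t k μ * s k μ = 1 := by
  induction μ with
  | nil => rw [t_nil, s_nil, one_mul]
  | cons a μ ih => rw [t_cons_mul_s_cons, if_pos rfl, ih]

/-- the products `t μ * s ν` for words of equal length -/
lemma t_mul_s_eq {μ ν : List Bool} (h : μ.length = ν.length) :
    t k μ * s k ν = 0 ∨ t k μ * s k ν = 1 := by
  rcases t_mul_s (k := k) μ ν with h1 | ⟨ρ, h1, h2⟩ | ⟨ρ, h1, h2⟩
  · exact Or.inl h1
  · right
    have : ρ = [] := by
      rw [h1, List.length_append] at h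
      exact List.length_eq_zero_iff.1 (by omega)
    rw [h2, this, s_nil]
  · right
    have : ρ = [] := by
      rw [h1, List.length_append] at h
      exact List.length_eq_zero_iff.1 (by omega)
    rw [h2, this, t_nil]

/-! ### The components -/

variable (k)

/-- the component of degree `n` of the Leavitt algebra -/
def grade (n : ℤ) : Submodule k (E k) :=
  Submodule.span k {x | ∃ μ ν : List Bool, (μ.length : ℤ) = ν.length + n ∧ x = s k μ * t k ν}

variable {k}

lemma s_mul_t_mem {μ ν : List Bool} {n : ℤ} (h : (μ.length : ℤ) = ν.length + n) :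
    s k μ * t k ν ∈ grade k n := Submodule.subset_span ⟨μ, ν, h, rfl⟩

lemma s_mem {μ : List Bool} {n : ℤ} (h : (μ.length : ℤ) = n) : s k μ ∈ grade k n := by
  have := s_mul_t_mem (k := k) (μ := μ) (ν := []) (n := n) (by simpa using h)
  rwa [t_nil, mul_one] at this

lemma t_mem {ν : List Bool} {n : ℤ} (h : (ν.length : ℤ) = -n) : t k ν ∈ grade k n := by
  have := s_mul_t_mem (k := k) (μ := []) (ν := ν) (n := n) (by simp [h])
  rwa [s_nil, one_mul] at this

lemma one_mem_grade : (1 : E k) ∈ grade k 0 := s_mem (μ := []) rfl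

lemma mul_mem_grade {m n : ℤ} {x y : E k} (hx : x ∈ grade k m) (hy : y ∈ grade k n) :
    x * y ∈ grade k (m + n) := by
  have h1 : grade k m * grade k n ≤ grade k (m + n) := by
    rw [grade, grade, Submodule.span_mul_span, Submodule.span_le]
    rintro _ ⟨_, ⟨μ, ν, h, rfl⟩, _, ⟨μ', ν', h', rfl⟩, rfl⟩
    dsimp only
    rw [show s k μ * t k ν * (s k μ' * t k ν') = s k μ * (t k ν * s k μ') * t k ν' by
      noncomm_ring]
    rcases t_mul_s (k := k) ν μ' with h1 | ⟨ρ, h1, h2⟩ | ⟨ρ, h1, h2⟩
    · rw [h1, mul_zero, zero_mul]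
      exact Submodule.zero_mem _
    · rw [h2, ← s_append]
      refine s_mul_t_mem ?_
      rw [h1, List.length_append] at h'
      rw [List.length_append]
      push_cast at *
      omega
    · rw [h2, mul_assoc, ← t_append]
      refine s_mul_t_mem ?_
      rw [h1, List.length_append] at h
      rw [List.length_append]
      push_cast at *
      omega
  exact h1 (Submodule.mul_mem_mul hx hy)

lemma mul_mem_grade' {l m n : ℤ} {x y : E k} (hx : x ∈ grade k m) (hy : y ∈ grade k n)
    (h : m + n = l) : x * y ∈ grade k l := h ▸ mul_mem_grade hx hy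

/-- the words `0…01` -/
def al (L : ℕ) : List Bool := List.replicate L false ++ [true]

lemma al_succ (L : ℕ) : al (L + 1) = false :: al L := rfl
lemma al_zero : al 0 = [true] := rfl
lemma length_al (L : ℕ) : (al L).length = L + 1 := by simp [al]

lemma t_al_mul_s (μ : List Bool) (L : ℕ) (h : μ.length ≤ L) :
    t k (al L) * s k μ = 0 ∨ t k (al L) * s k μ = t k (al (L - μ.length)) := by
  induction μ generalizing L with
  | nil => right; rw [s_nil, mul_one, List.length_nil, Nat.sub_zero]
  | cons b μ ih =>
    obtain ⟨L, rfl⟩ : ∃ L', L = L' + 1 := ⟨L - 1, by rw [List.length_cons] at h; omega⟩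
    rw [al_succ, t_cons_mul_s_cons]
    rw [List.length_cons] at h
    split_ifs with hb
    · rcases ih L (by omega) with h1 | h1
      · exact Or.inl h1
      · right
        rw [h1, List.length_cons, Nat.add_sub_add_right]
    · exact Or.inl rfl

lemma t_mul_s_al (ν : List Bool) (L : ℕ) (h : ν.length ≤ L) :
    t k ν * s k (al L) = 0 ∨ t k ν * s k (al L) = s k (al (L - ν.length)) := by
  induction ν generalizing L with
  | nil => right; rw [t_nil, one_mul, List.length_nil, Nat.sub_zero]
  | cons b ν ih =>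
    obtain ⟨L, rfl⟩ : ∃ L', L = L' + 1 := ⟨L - 1, by rw [List.length_cons] at h; omega⟩
    rw [al_succ, t_cons_mul_s_cons]
    rw [List.length_cons] at h
    split_ifs with hb
    · rcases ih L (by omega) with h1 | h1
      · exact Or.inl h1
      · right
        rw [h1, List.length_cons, Nat.add_sub_add_right]
    · exact Or.inl rfl

lemma t_al_mul_s_al {a b : ℕ} (h : a ≠ b) : t k (al a) * s k (al b) = 0 := by
  induction a generalizing b with
  | zero =>
    obtain ⟨b, rfl⟩ : ∃ b', b = b' + 1 := ⟨b - 1, by omega⟩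
    rw [al_zero, al_succ, t_cons_mul_s_cons, if_neg (by decide)]
  | succ a ih =>
    cases b with
    | zero => rw [al_zero, al_succ, t_cons_mul_s_cons, if_neg (by decide)]
    | succ b => rw [al_succ, al_succ, t_cons_mul_s_cons, if_pos rfl, ih (by omega)]

/-- the words `0…01` kill the components of non-zero degree -/
lemma kill {m : ℤ} (hm : m ≠ 0) {y : E k} (hy : y ∈ grade k m) :
    ∀ᶠ L in atTop, t k (al L) * y * s k (al L) = 0 := by
  induction hy using Submodule.span_induction with
  | mem y hy =>
    obtain ⟨μ, ν, h, rfl⟩ := hy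
    filter_upwards [eventually_ge_atTop μ.length, eventually_ge_atTop ν.length] with L h1 h2
    rw [show t k (al L) * (s k μ * t k ν) * s k (al L) =
      (t k (al L) * s k μ) * (t k ν * s k (al L)) by noncomm_ring]
    rcases t_al_mul_s (k := k) μ L h1 with h3 | h3
    · rw [h3, zero_mul]
    · rcases t_mul_s_al (k := k) ν L h2 with h4 | h4
      · rw [h4, mul_zero]
      · rw [h3, h4]
        exact t_al_mul_s_al (by omega)
  | zero => filter_upwards with L; rw [mul_zero, zero_mul]
  | add x y _ _ hx hy =>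
    filter_upwards [hx, hy] with L h1 h2
    rw [mul_add, add_mul, h1, h2, add_zero]
  | smul c x _ hx =>
    filter_upwards [hx] with L h1
    rw [mul_smul_comm, smul_mul_assoc, h1, smul_zero]

lemma kill' {n m : ℤ} (hm : m ≠ n) {y : E k} (hy : y ∈ grade k m) {μ ν : List Bool}
    (h : (μ.length : ℤ) = ν.length + n) :
    ∀ᶠ L in atTop, t k (μ ++ al L) * y * s k (ν ++ al L) = 0 := by
  have h1 : t k μ * y * s k ν ∈ grade k (m - n) :=
    mul_mem_grade' (mul_mem_grade (t_mem (n := -μ.length) (by ring)) hy) (s_mem rfl) (by omega)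
  filter_upwards [kill (by omega) h1] with L hL
  rw [t_append, s_append, ← hL]
  noncomm_ring

/-- in large degrees the elements of a component are matrices of scalars -/
lemma scalar {n : ℤ} {y : E k} (hy : y ∈ grade k n) : ∃ q : ℕ, ∀ μ ν : List Bool,
    q ≤ ν.length → (μ.length : ℤ) = ν.length + n → ∃ c : k, t k μ * y * s k ν = c • 1 := by
  induction hy using Submodule.span_induction with
  | mem y hy =>
    obtain ⟨μ', ν', h', rfl⟩ := hy
    refine ⟨ν'.length, fun μ ν hν h => ?_⟩
    rw [show t k μ * (s k μ' * t k ν') * s k ν =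
      (t k μ * s k μ') * (t k ν' * s k ν) by noncomm_ring]
    have h0 : ∃ ρ, ∃ e : k, ρ.length + μ'.length = μ.length ∧ t k μ * s k μ' = e • t k ρ := by
      rcases t_mul_s (k := k) μ μ' with h3 | ⟨ρ, h4, h5⟩ | ⟨ρ, h4, h5⟩
      · exact ⟨List.replicate (μ.length - μ'.length) false, 0, by
          rw [List.length_replicate]; omega, by rw [h3, zero_smul]⟩
      · have : ρ = [] := by
          rw [h4, List.length_append] at h'
          push_cast at h'
          exact List.length_eq_zero_iff.1 (by omega)
        subst this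
        refine ⟨[], 1, ?_, ?_⟩
        · rw [h4]; simp
        · rw [h5, s_nil, t_nil, one_smul]
      · exact ⟨ρ, 1, by rw [h4, List.length_append, add_comm], by rw [h5, one_smul]⟩
    have h0' : ∃ ρ, ∃ e : k, ρ.length + ν'.length = ν.length ∧ t k ν' * s k ν = e • s k ρ := by
      rcases t_mul_s (k := k) ν' ν with h3 | ⟨ρ, h4, h5⟩ | ⟨ρ, h4, h5⟩
      · exact ⟨List.replicate (ν.length - ν'.length) false, 0, by
          rw [List.length_replicate]; omega, by rw [h3, zero_smul]⟩
      · exact ⟨ρ, 1, by rw [h4, List.length_append, add_comm], by rw [h5, one_smul]⟩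
      · have : ρ = [] := by
          rw [h4, List.length_append] at hν
          exact List.length_eq_zero_iff.1 (by omega)
        subst this
        refine ⟨[], 1, ?_, ?_⟩
        · rw [h4]; simp
        · rw [h5, s_nil, t_nil, one_smul]
    obtain ⟨ρ, e, h1, h2⟩ := h0
    obtain ⟨ρ', e', h1', h2'⟩ := h0'
    rw [h2, h2', smul_mul_smul_comm]
    rcases t_mul_s_eq (k := k) (μ := ρ) (ν := ρ') (by omega) with h6 | h6
    · exact ⟨0, by rw [h6, smul_zero, zero_smul]⟩
    · exact ⟨e * e', by rw [h6]⟩
  | zero => exact ⟨0, fun μ ν _ _ => ⟨0, by rw [mul_zero, zero_mul, zero_smul]⟩⟩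
  | add x y _ _ hx hy =>
    obtain ⟨q, hq⟩ := hx
    obtain ⟨q', hq'⟩ := hy
    refine ⟨max q q', fun μ ν h1 h2 => ?_⟩
    obtain ⟨c, hc⟩ := hq μ ν (by omega) h2
    obtain ⟨c', hc'⟩ := hq' μ ν (by omega) h2
    exact ⟨c + c', by rw [mul_add, add_mul, hc, hc', add_smul]⟩
  | smul e x _ hx =>
    obtain ⟨q, hq⟩ := hx
    refine ⟨q, fun μ ν h1 h2 => ?_⟩
    obtain ⟨c, hc⟩ := hq μ ν h1 h2
    exact ⟨e * c, by rw [mul_smul_comm, smul_mul_assoc, hc, smul_smul]⟩

lemma exists_right {y : E k} (hy : y ≠ 0) (q : ℕ) : ∃ ν : List Bool, ν.length = q ∧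
    y * s k ν ≠ 0 := by
  induction q with
  | zero => exact ⟨[], rfl, by rwa [s_nil, mul_one]⟩
  | succ q ih =>
    obtain ⟨ν, h1, h2⟩ := ih
    by_contra hcon
    push Not at hcon
    have h3 : ∀ b, y * s k ν * S k b = 0 := fun b => by
      have := hcon (ν ++ [b]) (by rw [List.length_append, h1]; rfl)
      rwa [s_append, s_cons, s_nil, mul_one, ← mul_assoc] at this
    apply h2
    calc y * s k ν = y * s k ν * (S k false * T k false + S k true * T k true) := by
          rw [sum_S_T, mul_one]
      _ = (y * s k ν * S k false) * T k false + (y * s k ν * S k true) * T k true := by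
          noncomm_ring
      _ = 0 := by rw [h3, h3, zero_mul, zero_mul, add_zero]

lemma exists_left {y : E k} (hy : y ≠ 0) (q : ℕ) : ∃ μ : List Bool, μ.length = q ∧
    t k μ * y ≠ 0 := by
  induction q with
  | zero => exact ⟨[], rfl, by rwa [t_nil, one_mul]⟩
  | succ q ih =>
    obtain ⟨μ, h1, h2⟩ := ih
    by_contra hcon
    push Not at hcon
    have h3 : ∀ b, T k b * (t k μ * y) = 0 := fun b => by
      have := hcon (μ ++ [b]) (by rw [List.length_append, h1]; rfl)
      rwa [t_append, t_cons, t_nil, one_mul, mul_assoc] at this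
    apply h2
    calc t k μ * y = (S k false * T k false + S k true * T k true) * (t k μ * y) := by
          rw [sum_S_T, one_mul]
      _ = S k false * (T k false * (t k μ * y)) + S k true * (T k true * (t k μ * y)) := by
          noncomm_ring
      _ = 0 := by rw [h3, h3, mul_zero, mul_zero, add_zero]

/-- a non-zero element of a component has a non-zero scalar matrix entry -/
lemma exists_scalar {n : ℤ} {y : E k} (hy : y ∈ grade k n) (hy0 : y ≠ 0) :
    ∃ μ ν : List Bool, (μ.length : ℤ) = ν.length + n ∧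
      ∃ c : k, c ≠ 0 ∧ t k μ * y * s k ν = c • 1 := by
  obtain ⟨q, hq⟩ := scalar hy
  obtain ⟨ν, h1, h2⟩ := exists_right hy0 (q + n.natAbs)
  obtain ⟨μ, h3, h4⟩ := exists_left h2 ((q : ℤ) + n.natAbs + n).toNat
  rw [← mul_assoc] at h4
  have h5 : (μ.length : ℤ) = ν.length + n := by omega
  obtain ⟨c, hc⟩ := hq μ ν (by omega) h5
  refine ⟨μ, ν, h5, c, ?_, hc⟩
  rintro rfl
  rw [zero_smul] at hc
  exact h4 hc

/-! ### Dimensions -/

/-- the functions vanishing from `2 ^ j` on -/
def W (j : ℕ) (f : ℕ → k) : Prop := ∀ n, 2 ^ j ≤ n → f n = 0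

lemma W_S (b : Bool) {j : ℕ} {f : ℕ → k} (hf : W j f) : W (j + 1) (S k b f) := by
  intro n hn
  change (if n.bodd = b then f n.div2 else 0) = 0
  split_ifs
  · apply hf
    rw [Nat.div2_val, Nat.le_div_iff_mul_le (by norm_num), ← pow_succ]
    exact hn
  · rfl

lemma W_T (b : Bool) {j : ℕ} {f : ℕ → k} (hf : W (j + 1) f) : W j (T k b f) := by
  intro n hn
  apply hf
  rw [Nat.bit_val, pow_succ]
  omega

lemma W_s (μ : List Bool) {j : ℕ} {f : ℕ → k} (hf : W j f) : W (j + μ.length) (s k μ f) := by
  induction μ with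
  | nil => exact hf
  | cons b μ ih => exact W_S b ih

lemma W_t (ν : List Bool) {j : ℕ} {f : ℕ → k} (hf : W (j + ν.length) f) : W j (t k ν f) := by
  induction ν generalizing f with
  | nil => exact hf
  | cons b ν ih => exact ih (W_T b hf)

lemma W_grade {n : ℤ} {y : E k} (hy : y ∈ grade k n) : ∃ q : ℕ, ∀ i j : ℕ, q ≤ j →
    (i : ℤ) = j + n → ∀ f, W j f → W i (y f) := by
  induction hy using Submodule.span_induction with
  | mem y hy =>
    obtain ⟨μ, ν, h, rfl⟩ := hy
    refine ⟨ν.length, fun i j h1 h2 f hf => ?_⟩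
    obtain ⟨j, rfl⟩ : ∃ j', j = j' + ν.length := ⟨j - ν.length, by omega⟩
    obtain rfl : i = j + μ.length := by push_cast at h2; omega
    exact W_s μ (W_t ν hf)
  | zero => exact ⟨0, fun i j _ _ f _ n _ => rfl⟩
  | add x y _ _ hx hy =>
    obtain ⟨q, hq⟩ := hx
    obtain ⟨q', hq'⟩ := hy
    refine ⟨max q q', fun i j h1 h2 f hf m hm => ?_⟩
    change x f m + y f m = 0
    rw [hq i j (by omega) h2 f hf m hm, hq' i j (by omega) h2 f hf m hm, add_zero]
  | smul c x _ hx =>
    obtain ⟨q, hq⟩ := hx
    refine ⟨q, fun i j h1 h2 f hf m hm => ?_⟩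
    change c • x f m = 0
    rw [hq i j h1 h2 f hf m hm, smul_zero]

/-- there is no invertible element in the component of degree one -/
lemma no_unit {a b : E k} (hb : b ∈ grade k (-1)) (hab : a * b = 1) :
    False := by
  obtain ⟨q', hb'⟩ := W_grade hb
  obtain ⟨j, hj⟩ : ∃ j, j = q' := ⟨_, rfl⟩
  let ext : (Fin (2 ^ (j + 1)) → k) →ₗ[k] (ℕ → k) :=
    { toFun := fun f n => if h : n < 2 ^ (j + 1) then f ⟨n, h⟩ else 0
      map_add' := fun f g => by
        funext n
        change (if h : n < 2 ^ (j + 1) then f ⟨n, h⟩ + g ⟨n, h⟩ else 0) =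
          (if h : n < 2 ^ (j + 1) then f ⟨n, h⟩ else 0) +
            (if h : n < 2 ^ (j + 1) then g ⟨n, h⟩ else 0)
        split_ifs
        · rfl
        · rw [add_zero]
      map_smul' := fun c f => by
        funext n
        change (if h : n < 2 ^ (j + 1) then c • f ⟨n, h⟩ else 0) =
          c • (if h : n < 2 ^ (j + 1) then f ⟨n, h⟩ else 0)
        split_ifs
        · rfl
        · rw [smul_zero] }
  let res : (ℕ → k) →ₗ[k] (Fin (2 ^ j) → k) := LinearMap.funLeft k k (fun i => (i : ℕ))
  have hW : ∀ f, W (j + 1) (ext f) := fun f n hn => dif_neg (by omega)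
  have hinj : Function.Injective (res ∘ₗ b ∘ₗ ext) := by
    rw [← LinearMap.ker_eq_bot, LinearMap.ker_eq_bot']
    intro f hf
    have h1 : W j (b (ext f)) := hb' j (j + 1) (by omega) (by push_cast; ring) _ (hW f)
    have h2 : b (ext f) = 0 := by
      funext n
      by_cases hn : n < 2 ^ j
      · exact congrFun hf ⟨n, hn⟩
      · exact h1 n (by omega)
    have h3 : ext f = 0 := by
      calc ext f = (a * b) (ext f) := by rw [hab]; rfl
        _ = a (b (ext f)) := rfl
        _ = 0 := by rw [h2, map_zero]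
    funext n
    have h4 := congrFun h3 (n : ℕ)
    change (if h : (n : ℕ) < 2 ^ (j + 1) then f ⟨n, h⟩ else 0) = 0 at h4
    rwa [dif_pos n.2] at h4
  have := le_of_fin_injective k (res ∘ₗ b ∘ₗ ext) hinj
  rw [pow_succ] at this
  have h0 : 0 < 2 ^ j := Nat.two_pow_pos j
  omega

/-! ### The graded ring -/

open Multiplicative

lemma one_mem_mul (g : ℤ) : (1 : E k) ∈ grade k g * grade k (-g) := by
  obtain ⟨n, rfl | rfl⟩ := g.eq_nat_or_neg
  · induction n with
    | zero =>
      rw [← mul_one (1 : E k)]
      exact Submodule.mul_mem_mul one_mem_grade (by simpa using one_mem_grade)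
    | succ n ih =>
      have key : ∀ b, ∀ z ∈ grade k (n : ℤ) * grade k (-(n : ℤ)), S k b * z * T k b ∈
          grade k ((n + 1 : ℕ) : ℤ) * grade k (-((n + 1 : ℕ) : ℤ)) := by
        intro b z hz
        induction hz using Submodule.mul_induction_on' with
        | mem_mul_mem x hx y hy =>
          rw [show S k b * (x * y) * T k b = (S k b * x) * (y * T k b) by noncomm_ring]
          refine Submodule.mul_mem_mul ?_ ?_
          · refine mul_mem_grade' (m := 1) ?_ hx (by push_cast; ring)
            have := s_mem (k := k) (μ := [b]) (n := 1) rfl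
            rwa [s_cons, s_nil, mul_one] at this
          · refine mul_mem_grade' (n := -1) hy ?_ (by push_cast; ring)
            have := t_mem (k := k) (ν := [b]) (n := -1) rfl
            rwa [t_cons, t_nil, one_mul] at this
        | add x _ y _ hx hy =>
          rw [mul_add, add_mul]
          exact Submodule.add_mem _ hx hy
      rw [← sum_S_T]
      have h1 := key false _ ih
      have h2 := key true _ ih
      rw [mul_one] at h1 h2
      exact Submodule.add_mem _ h1 h2
  · rw [neg_neg, ← t_mul_s_self (List.replicate n false)]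
    refine Submodule.mul_mem_mul (t_mem ?_) (s_mem ?_)
    · rw [List.length_replicate, neg_neg]
    · rw [List.length_replicate]

lemma grade_le_mul (g h : ℤ) : grade k (g + h) ≤ grade k g * grade k h := by
  intro x hx
  have h1 : (1 : E k) * x ∈ grade k g * grade k (-g) * grade k (g + h) :=
    Submodule.mul_mem_mul (one_mem_mul g) hx
  rw [one_mul, mul_assoc] at h1
  refine (mul_le_mul' le_rfl ?_ : grade k g * (grade k (-g) * grade k (g + h)) ≤ _) h1
  rw [Submodule.mul_le]
  intro y hy z hz
  exact mul_mem_grade' hy hz (by ring)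

variable (k)

/-- the Leavitt algebra, as a ring of Laurent polynomials with coefficients in `E` -/
def Leavitt : Subring (MonoidAlgebra (E k) (Multiplicative ℤ)) where
  carrier := {x | ∀ g, x.coeff g ∈ grade k (toAdd g)}
  zero_mem' := fun g => by
    rw [MonoidAlgebra.coeff_zero]
    exact Submodule.zero_mem _
  add_mem' := fun {x y} hx hy g => by
    rw [MonoidAlgebra.coeff_add]
    exact Submodule.add_mem _ (hx g) (hy g)
  neg_mem' := fun {x} hx g => by
    rw [MonoidAlgebra.coeff_neg]
    exact Submodule.neg_mem _ (hx g)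
  one_mem' := fun g => by
    rw [MonoidAlgebra.one_def, MonoidAlgebra.coeff_single, Finsupp.single_apply]
    split_ifs with h
    · rw [← h]
      exact one_mem_grade
    · exact Submodule.zero_mem _
  mul_mem' := fun {x y} hx hy g => by
    classical
    rw [MonoidAlgebra.coeff_mul]
    refine Submodule.sum_mem _ fun a _ => Submodule.sum_mem _ fun b _ => ?_
    dsimp only
    split_ifs with h
    · rw [← h, toAdd_mul]
      exact mul_mem_grade (hx a) (hy b)
    · exact Submodule.zero_mem _

/-- the grading of the Leavitt algebra -/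
def comp (g : Multiplicative ℤ) : AddSubgroup (Leavitt k) where
  carrier := {x | ∀ h, h ≠ g → x.1.coeff h = 0}
  zero_mem' := fun _ _ => rfl
  add_mem' := fun {x y} hx hy h hh => by
    change x.1.coeff h + y.1.coeff h = 0
    rw [hx h hh, hy h hh, add_zero]
  neg_mem' := fun {x} hx h hh => by
    change -x.1.coeff h = 0
    rw [hx h hh, neg_zero]

variable {k}

/-- homogeneous elements -/
noncomputable def hom (g : Multiplicative ℤ) (a : E k) (ha : a ∈ grade k (toAdd g)) : Leavitt k :=
  ⟨MonoidAlgebra.single g a, fun h => by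
    classical
    rw [MonoidAlgebra.coeff_single, Finsupp.single_apply]
    split_ifs with hh
    · rwa [← hh]
    · exact Submodule.zero_mem _⟩

lemma coeff_hom (g : Multiplicative ℤ) (a : E k) (ha : a ∈ grade k (toAdd g))
    (h : Multiplicative ℤ) : (hom g a ha).1.coeff h = if g = h then a else 0 := by
  classical
  change (MonoidAlgebra.single g a).coeff h = _
  rw [MonoidAlgebra.coeff_single, Finsupp.single_apply]

lemma hom_mem (g : Multiplicative ℤ) (a : E k) (ha : a ∈ grade k (toAdd g)) :
    hom g a ha ∈ comp k g := fun h hh => by rw [coeff_hom, if_neg (Ne.symm hh)]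

lemma eq_hom {g : Multiplicative ℤ} {x : Leavitt k} (hx : x ∈ comp k g) :
    x = hom g (x.1.coeff g) (x.2 g) := by
  apply Subtype.ext
  apply MonoidAlgebra.coeff_injective
  ext1 h
  rw [coeff_hom]
  split_ifs with hh
  · rw [hh]
  · exact hx h (Ne.symm hh)

lemma hom_mul_hom (g h : Multiplicative ℤ) {a b : E k} (ha : a ∈ grade k (toAdd g))
    (hb : b ∈ grade k (toAdd h)) :
    hom g a ha * hom h b hb = hom (g * h) (a * b) (mul_mem_grade ha hb) := by
  apply Subtype.ext
  exact MonoidAlgebra.single_mul_single _ _ _ _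

lemma hom_add (g : Multiplicative ℤ) {a b : E k} (ha : a ∈ grade k (toAdd g))
    (hb : b ∈ grade k (toAdd g)) :
    hom g (a + b) (Submodule.add_mem _ ha hb) = hom g a ha + hom g b hb := by
  apply Subtype.ext
  exact MonoidAlgebra.single_add _ _ _

lemma ext_coeff {x y : Leavitt k} (h : ∀ g, x.1.coeff g = y.1.coeff g) : x = y := by
  apply Subtype.ext
  apply MonoidAlgebra.coeff_injective
  ext1 g
  exact h g

/-- an element belongs to every additive subgroup containing its homogeneous components -/
lemma mem_of_hom_mem (N : AddSubgroup (Leavitt k)) (x : Leavitt k)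
    (h : ∀ g, x.1.coeff g ≠ 0 → hom g (x.1.coeff g) (x.2 g) ∈ N) : x ∈ N := by
  classical
  have key : x = ∑ g ∈ x.1.coeff.support, hom g (x.1.coeff g) (x.2 g) := by
    apply ext_coeff
    intro h
    rw [AddSubmonoidClass.coe_finsetSum, MonoidAlgebra.coeff_sum, Finsupp.finsetSum_apply]
    simp_rw [coeff_hom]
    rw [Finset.sum_ite_eq']
    split_ifs with hh
    · rfl
    · exact Finsupp.notMem_support_iff.1 hh
  rw [key]
  exact sum_mem fun g hg => h g (Finsupp.mem_support_iff.1 hg)

lemma coeff_zero_of_mem_part {H : Set (Multiplicative ℤ)} {x : Leavitt k}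
    (hx : x ∈ part (comp k) H) {g : Multiplicative ℤ} (hg : g ∉ H) : x.1.coeff g = 0 := by
  let N : AddSubgroup (Leavitt k) :=
    { carrier := {x | x.1.coeff g = 0}
      zero_mem' := rfl
      add_mem' := fun {x y} (hx : x.1.coeff g = 0) (hy : y.1.coeff g = 0) => by
        change x.1.coeff g + y.1.coeff g = 0
        rw [hx, hy, add_zero]
      neg_mem' := fun {x} (hx : x.1.coeff g = 0) => by
        change -x.1.coeff g = 0
        rw [hx, neg_zero] }
  have : part (comp k) H ≤ N := by
    refine iSup₂_le fun h hh y hy => ?_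
    exact hy g (fun e => hg (e ▸ hh))
  exact this hx

lemma mem_part {H : Set (Multiplicative ℤ)} {x : Leavitt k}
    (h : ∀ g, g ∉ H → x.1.coeff g = 0) : x ∈ part (comp k) H := by
  apply mem_of_hom_mem
  intro g hg
  have hgH : g ∈ H := by
    by_contra hcon
    exact hg (h g hcon)
  exact (le_iSup₂ (f := fun h (_ : h ∈ H) => comp k h) g hgH) (hom_mem _ _ _)

lemma mul_coeff_left {a : E k} (ha : a ∈ grade k 0) (x : Leavitt k) (g : Multiplicative ℤ) :
    (hom 1 a ha * x).1.coeff g = a * x.1.coeff g :=
  MonoidAlgebra.coeff_single_mul_eq_mul_coeff g (fun h _ => by rw [one_mul])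

lemma mul_coeff_right {a : E k} (ha : a ∈ grade k 0) (x : Leavitt k) (g : Multiplicative ℤ) :
    (x * hom 1 a ha).1.coeff g = x.1.coeff g * a :=
  MonoidAlgebra.coeff_mul_single_eq_coeff_mul g (fun h _ => by rw [mul_one])

theorem isGrading : IsGrading (comp k) where
  mul_mem g h a b ha hb := by
    rw [eq_hom ha, eq_hom hb, hom_mul_hom]
    exact hom_mem _ _ _
  indep := by
    intro g
    rw [disjoint_iff, eq_bot_iff]
    intro x hx
    rw [AddSubgroup.mem_inf] at hx
    have h1 : x ∈ part (comp k) {h | h ≠ g} := hx.2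
    rw [AddSubgroup.mem_bot]
    apply ext_coeff
    intro h
    by_cases hh : h = g
    · rw [hh]
      exact coeff_zero_of_mem_part h1 (fun e => e rfl)
    · exact hx.1 h hh
  iSup_eq_top := by
    rw [eq_top_iff]
    intro x _
    apply mem_of_hom_mem
    intro g _
    exact (le_iSup (comp k) g) (hom_mem _ _ _)

theorem isStrong : IsStrong (comp k) := by
  intro g h
  apply le_antisymm
  · rw [AddSubgroup.closure_le]
    rintro _ ⟨a, ha, b, hb, rfl⟩
    exact isGrading.mul_mem g h a b ha hb
  · intro x hx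
    rw [eq_hom hx]
    have key : ∀ c : E k, ∀ hc : c ∈ grade k (toAdd g) * grade k (toAdd h),
        ∃ hc' : c ∈ grade k (toAdd (g * h)), hom (g * h) c hc' ∈
          AddSubgroup.closure {x : Leavitt k | ∃ a ∈ comp k g, ∃ b ∈ comp k h, x = a * b} := by
      intro c hc
      induction hc using Submodule.mul_induction_on' with
      | mem_mul_mem a ha b hb =>
        refine ⟨mul_mem_grade ha hb, ?_⟩
        rw [← hom_mul_hom g h ha hb]
        exact AddSubgroup.subset_closure ⟨_, hom_mem _ _ _, _, hom_mem _ _ _, rfl⟩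
      | add a _ b _ ha hb =>
        obtain ⟨ha1, ha2⟩ := ha
        obtain ⟨hb1, hb2⟩ := hb
        refine ⟨Submodule.add_mem _ ha1 hb1, ?_⟩
        rw [hom_add (g * h) ha1 hb1]
        exact AddSubgroup.add_mem _ ha2 hb2
    obtain ⟨_, h2⟩ := key (x.1.coeff (g * h)) (grade_le_mul _ _ (x.2 (g * h)))
    exact h2

/-- the key lemma: for a non-zero component of an element there are elements of degree zero which
isolate it -/
lemma isolate (x : Leavitt k) (g : Multiplicative ℤ) (hg : x.1.coeff g ≠ 0) :
    ∃ μ ν : List Bool, (μ.length : ℤ) = ν.length + toAdd g ∧ ∃ c : k, c ≠ 0 ∧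
      ∀ᶠ L in atTop, ∀ h, t k (μ ++ al L) * x.1.coeff h * s k (ν ++ al L) =
        if h = g then c • 1 else 0 := by
  obtain ⟨μ, ν, h1, c, hc, h2⟩ := exists_scalar (x.2 g) hg
  refine ⟨μ, ν, h1, c, hc, ?_⟩
  have h3 : ∀ᶠ L in atTop, ∀ h ∈ x.1.coeff.support, h ≠ g →
      t k (μ ++ al L) * x.1.coeff h * s k (ν ++ al L) = 0 := by
    rw [eventually_all_finset]
    intro h _
    by_cases hh : h = g
    · filter_upwards with L h0
      exact absurd hh h0
    · filter_upwards [kill' (fun e => hh (toAdd.injective e)) (x.2 h) h1] with L hL _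
      exact hL
  filter_upwards [h3] with L hL h
  split_ifs with hh
  · subst hh
    rw [t_append, s_append]
    calc t k (al L) * t k μ * x.1.coeff h * (s k ν * s k (al L))
        = t k (al L) * (t k μ * x.1.coeff h * s k ν) * s k (al L) := by noncomm_ring
      _ = _ := by rw [h2, mul_smul_comm, smul_mul_assoc, mul_one, t_mul_s_self]
  · by_cases hs : h ∈ x.1.coeff.support
    · exact hL h hs hh
    · rw [Finsupp.notMem_support_iff.1 hs, mul_zero, zero_mul]

lemma hom_one_mem {a : E k} (ha : a ∈ grade k 0) : hom 1 a ha ∈ comp k 1 := hom_mem _ _ _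

/-- a sub-bimodule containing an element with non-zero component of degree `g` contains the whole
component of degree `g` -/
lemma comp_le_of_mem {N : AddSubgroup (Leavitt k)} (hN : IsSubBimodule (comp k) N)
    {x : Leavitt k} (hx : x ∈ N) {g : Multiplicative ℤ} (hg : x.1.coeff g ≠ 0) :
    comp k g ≤ N := by
  obtain ⟨μ, ν, h1, c, hc, h2⟩ := isolate x g hg
  -- all elements `e • s σ * t τ` with words of the same length as `μ ++ al L` and `ν ++ al L`
  have h3 : ∀ᶠ L in atTop, ∀ σ τ : List Bool, ∀ hσ : σ.length = (μ ++ al L).length,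
      ∀ hτ : τ.length = (ν ++ al L).length, ∀ e : k, ∀ he : e • (s k σ * t k τ) ∈ grade k (toAdd g),
        hom g (e • (s k σ * t k τ)) he ∈ N := by
    filter_upwards [h2] with L hL σ τ hσ hτ e he
    have ha : (e * c⁻¹) • (s k σ * t k (μ ++ al L)) ∈ grade k 0 :=
      Submodule.smul_mem _ _ (s_mul_t_mem (by rw [hσ, add_zero]))
    have hb : s k (ν ++ al L) * t k τ ∈ grade k 0 := s_mul_t_mem (by rw [hτ, add_zero])
    have h4 := (hN _ (hom_one_mem hb) _ (hN _ (hom_one_mem ha) _ hx).1).2
    convert h4 using 1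
    apply ext_coeff
    intro h
    rw [mul_coeff_right, mul_coeff_left, coeff_hom]
    rw [show (e * c⁻¹) • (s k σ * t k (μ ++ al L)) * x.1.coeff h * (s k (ν ++ al L) * t k τ) =
      (e * c⁻¹) • (s k σ * (t k (μ ++ al L) * x.1.coeff h * s k (ν ++ al L)) * t k τ) by
        rw [smul_mul_assoc, smul_mul_assoc]
        noncomm_ring]
    rw [hL h]
    by_cases hh : h = g
    · rw [if_pos hh, if_pos hh.symm, mul_smul_comm, smul_mul_assoc, mul_one, smul_smul,
        mul_assoc e, inv_mul_cancel₀ hc, mul_one]
    · rw [if_neg hh, if_neg (Ne.symm hh), mul_zero, zero_mul, smul_zero]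
  -- all elements `e • s σ * t τ` of degree `g`
  have h5 : ∀ (d : ℕ) (L : ℕ) (σ τ : List Bool), σ.length + d = (μ ++ al L).length →
      τ.length + d = (ν ++ al L).length → (∀ σ τ : List Bool,
        ∀ hσ : σ.length = (μ ++ al L).length, ∀ hτ : τ.length = (ν ++ al L).length, ∀ e : k,
          ∀ he : e • (s k σ * t k τ) ∈ grade k (toAdd g),
            hom g (e • (s k σ * t k τ)) he ∈ N) → ∀ e : k,
              ∀ he : e • (s k σ * t k τ) ∈ grade k (toAdd g),
                hom g (e • (s k σ * t k τ)) he ∈ N := by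
    intro d L
    induction d with
    | zero => intro σ τ hσ hτ hL e he; exact hL σ τ (by omega) (by omega) e he
    | succ d ih =>
      intro σ τ hσ hτ hL e he
      have hlen : (σ.length : ℤ) = τ.length + toAdd g := by
        rw [List.length_append] at hσ hτ
        omega
      have key : ∀ b, ∃ hb : e • (s k (σ ++ [b]) * t k (τ ++ [b])) ∈ grade k (toAdd g),
          hom g (e • (s k (σ ++ [b]) * t k (τ ++ [b]))) hb ∈ N := by
        intro b
        refine ⟨Submodule.smul_mem _ _ (s_mul_t_mem ?_), ih _ _ ?_ ?_ hL e _⟩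
        · rw [List.length_append, List.length_append]
          push_cast
          omega
        · rw [List.length_append, ← hσ, List.length_singleton]
          ring
        · rw [List.length_append, ← hτ, List.length_singleton]
          ring
      obtain ⟨h6, h7⟩ := key false
      obtain ⟨h8, h9⟩ := key true
      convert AddSubgroup.add_mem _ h7 h9 using 1
      rw [← hom_add]
      congr 1
      rw [← smul_add]
      congr 1
      rw [s_append, s_append, t_append, t_append]
      simp only [s_cons, t_cons, s_nil, t_nil, mul_one, one_mul]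
      calc s k σ * t k τ = s k σ * (S k false * T k false + S k true * T k true) * t k τ := by
            rw [sum_S_T, mul_one]
        _ = _ := by noncomm_ring
  have h6 : ∀ y ∈ grade k (toAdd g), ∃ hy : y ∈ grade k (toAdd g), hom g y hy ∈ N := by
    intro y hy
    induction hy using Submodule.closure_induction with
    | zero =>
      refine ⟨Submodule.zero_mem _, ?_⟩
      have : hom g (0 : E k) (Submodule.zero_mem _) = 0 := by
        apply ext_coeff
        intro h
        rw [coeff_hom, ite_self]
        rfl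
      rw [this]
      exact N.zero_mem
    | add y z _ _ hy hz =>
      obtain ⟨hy1, hy2⟩ := hy
      obtain ⟨hz1, hz2⟩ := hz
      refine ⟨Submodule.add_mem _ hy1 hz1, ?_⟩
      rw [hom_add g hy1 hz1]
      exact AddSubgroup.add_mem _ hy2 hz2
    | smul_mem e y hy =>
      obtain ⟨σ, τ, h7, rfl⟩ := hy
      refine ⟨Submodule.smul_mem _ _ (s_mul_t_mem h7), ?_⟩
      obtain ⟨L, hL, hL2⟩ := (h3.and (eventually_ge_atTop σ.length)).exists
      refine h5 ((μ ++ al L).length - σ.length) L σ τ ?_ ?_ hL e _
      · rw [List.length_append, length_al]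
        omega
      · rw [List.length_append, List.length_append, length_al]
        omega
  intro y hy
  rw [eq_hom hy]
  obtain ⟨h7, h8⟩ := h6 _ (y.2 g)
  exact h8

/-- the components are not zero -/
lemma exists_ne_zero (g : Multiplicative ℤ) : ∃ (a : E k) (_ : a ∈ grade k (toAdd g)), a ≠ 0 := by
  have h0 : (1 : E k) ≠ 0 := one_ne_zero
  obtain ⟨n, hn | hn⟩ := (toAdd g).eq_nat_or_neg
  · refine ⟨s k (List.replicate n false), s_mem (by rw [List.length_replicate, hn]), fun h => ?_⟩
    apply h0
    rw [← t_mul_s_self (List.replicate n false), h, mul_zero]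
  · refine ⟨t k (List.replicate n false), t_mem (by rw [List.length_replicate, hn, neg_neg]),
      fun h => ?_⟩
    apply h0
    rw [← t_mul_s_self (List.replicate n false), h, zero_mul]

lemma part_isSubBimodule (H : Set (Multiplicative ℤ)) :
    IsSubBimodule (comp k) (part (comp k) H) := by
  intro a ha x hx
  rw [eq_hom ha]
  constructor
  · apply mem_part
    intro g hg
    rw [mul_coeff_left, coeff_zero_of_mem_part hx hg, mul_zero]
  · apply mem_part
    intro g hg
    rw [mul_coeff_right, coeff_zero_of_mem_part hx hg, zero_mul]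

lemma iso_subset {H K : Set (Multiplicative ℤ)} (f : part (comp k) H ≃+ part (comp k) K)
    (hf : IsBimoduleIso (comp k) f) : H ⊆ K := by
  intro g hg
  obtain ⟨a, ha, ha0⟩ := exists_ne_zero (k := k) g
  have hx : hom g a ha ∈ part (comp k) H :=
    (le_iSup₂ (f := fun h (_ : h ∈ H) => comp k h) g hg) (hom_mem _ _ _)
  let x : part (comp k) H := ⟨hom g a ha, hx⟩
  have hx0 : x ≠ 0 := by
    intro h
    apply ha0
    have h1 := congrArg (fun y : part (comp k) H => y.1.1.coeff g) h
    change (hom g a ha).1.coeff g = 0 at h1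
    rwa [coeff_hom, if_pos rfl] at h1
  have hz0 : f x ≠ 0 := fun h => hx0 (f.injective (by rw [h, map_zero]))
  obtain ⟨g', hg'⟩ : ∃ g', (f x).1.1.coeff g' ≠ 0 := by
    by_contra hcon
    push Not at hcon
    apply hz0
    apply Subtype.ext
    apply ext_coeff
    intro h
    exact hcon h
  have hg'K : g' ∈ K := by
    by_contra hcon
    exact hg' (coeff_zero_of_mem_part (f x).2 hcon)
  by_cases hgg : g = g'
  · rwa [hgg]
  · exfalso
    obtain ⟨μ, ν, h1, c, hc, h2⟩ := isolate (f x).1 g' hg'
    have h3 := kill' (fun e => hgg (toAdd.injective e)) ha h1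
    obtain ⟨L, hL1, hL2⟩ := (h2.and h3).exists
    have hp : s k (μ ++ al L) * t k (μ ++ al L) ∈ grade k 0 := s_mul_t_mem (by rw [add_zero])
    have hq : s k (ν ++ al L) * t k (ν ++ al L) ∈ grade k 0 := s_mul_t_mem (by rw [add_zero])
    -- `p x q = 0` but `p f(x) q ≠ 0`
    let y : part (comp k) H := ⟨_, (part_isSubBimodule H _ (hom_one_mem hp) _ x.2).1⟩
    let z : part (comp k) H := ⟨_, (part_isSubBimodule H _ (hom_one_mem hq) _ y.2).2⟩
    have hz : z = 0 := by
      apply Subtype.ext
      apply ext_coeff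
      intro h
      change (hom 1 _ hp * hom g a ha * hom 1 _ hq).1.coeff h = 0
      rw [mul_coeff_right, mul_coeff_left, coeff_hom]
      split_ifs
      · calc s k (μ ++ al L) * t k (μ ++ al L) * a * (s k (ν ++ al L) * t k (ν ++ al L))
            = s k (μ ++ al L) * (t k (μ ++ al L) * a * s k (ν ++ al L)) * t k (ν ++ al L) := by
              noncomm_ring
          _ = 0 := by rw [hL2, mul_zero, zero_mul]
      · rw [mul_zero, zero_mul]
    have h4 : (f y : Leavitt k) = hom 1 _ hp * (f x).1 := (hf _ (hom_one_mem hp) x y).1 rfl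
    have h5 : (f z : Leavitt k) = (f y).1 * hom 1 _ hq := (hf _ (hom_one_mem hq) y z).2 rfl
    rw [hz, map_zero, h4] at h5
    have h6 := congrArg (fun w : Leavitt k => w.1.coeff g') h5
    change (0 : E k) = (hom 1 _ hp * (f x).1 * hom 1 _ hq).1.coeff g' at h6
    rw [mul_coeff_right, mul_coeff_left] at h6
    have h7 : t k (μ ++ al L) * (s k (μ ++ al L) * t k (μ ++ al L) * (f x).1.1.coeff g' *
        (s k (ν ++ al L) * t k (ν ++ al L))) * s k (ν ++ al L) = c • 1 := by
      calc t k (μ ++ al L) * (s k (μ ++ al L) * t k (μ ++ al L) * (f x).1.1.coeff g' *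
            (s k (ν ++ al L) * t k (ν ++ al L))) * s k (ν ++ al L)
          = (t k (μ ++ al L) * s k (μ ++ al L)) * (t k (μ ++ al L) * (f x).1.1.coeff g' *
            s k (ν ++ al L)) * (t k (ν ++ al L) * s k (ν ++ al L)) := by noncomm_ring
        _ = c • 1 := by rw [t_mul_s_self, t_mul_s_self, hL1, if_pos rfl, one_mul, mul_one]
    rw [← h6, mul_zero, zero_mul] at h7
    exact smul_ne_zero hc one_ne_zero h7.symm

theorem isControlled : IsControlled (comp k) where
  bij := by
    refine ⟨fun H _ => part_isSubBimodule H, ?_, ?_⟩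
    · intro H _ K _ hHK
      have key : ∀ H K : Set (Multiplicative ℤ), part (comp k) H = part (comp k) K → H ⊆ K := by
        intro H K hHK g hg
        by_contra hcon
        obtain ⟨a, ha, ha0⟩ := exists_ne_zero (k := k) g
        have hx : hom g a ha ∈ part (comp k) H :=
          (le_iSup₂ (f := fun h (_ : h ∈ H) => comp k h) g hg) (hom_mem _ _ _)
        rw [hHK] at hx
        have := coeff_zero_of_mem_part hx hcon
        rw [coeff_hom, if_pos rfl] at this
        exact ha0 this
      exact Set.Subset.antisymm (key H K hHK) (key K H hHK.symm)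
    · intro N hN
      refine ⟨{g | comp k g ≤ N}, trivial, ?_⟩
      apply le_antisymm
      · exact iSup₂_le fun g hg => hg
      · intro x hx
        apply mem_part
        intro g hg
        by_contra hcon
        exact hg (comp_le_of_mem hN hx hcon)
  iso := by
    rintro H K ⟨f, hf⟩
    refine Set.Subset.antisymm (iso_subset f hf) (iso_subset f.symm ?_)
    intro a ha x y
    have h1 : ((f.symm y : part (comp k) H) : Leavitt k) = (f.symm y).1 := rfl
    constructor
    · intro hxy
      have hz : a * (f.symm x).1 ∈ part (comp k) H :=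
        (part_isSubBimodule H a ha _ (f.symm x).2).1
      have := (hf a ha (f.symm x) ⟨_, hz⟩).1 rfl
      rw [f.apply_symm_apply, ← hxy] at this
      have h2 : f ⟨_, hz⟩ = y := Subtype.ext this
      rw [← h2, f.symm_apply_apply]
    · intro hxy
      have hz : (f.symm x).1 * a ∈ part (comp k) H :=
        (part_isSubBimodule H a ha _ (f.symm x).2).2
      have := (hf a ha (f.symm x) ⟨_, hz⟩).2 rfl
      rw [f.apply_symm_apply, ← hxy] at this
      have h2 : f ⟨_, hz⟩ = y := Subtype.ext this
      rw [← h2, f.symm_apply_apply]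

lemma coeff_one' : (1 : Leavitt k).1.coeff 1 = 1 := by
  have h : (1 : Leavitt k).1 = MonoidAlgebra.single (1 : Multiplicative ℤ) (1 : E k) := rfl
  rw [h, MonoidAlgebra.coeff_single, Finsupp.single_eq_same]

lemma hom_mul_coeff {a : E k} (ha : a ∈ grade k (toAdd (ofAdd (1 : ℤ)))) (v : Leavitt k) :
    (hom (ofAdd (1 : ℤ)) a ha * v).1.coeff 1 = a * v.1.coeff (ofAdd (-1)) := by
  have h : (hom (ofAdd (1 : ℤ)) a ha * v).1 = MonoidAlgebra.single (ofAdd (1 : ℤ)) a * v.1 := rfl
  rw [h]
  refine MonoidAlgebra.coeff_single_mul_eq_mul_coeff (ofAdd (-1)) (fun h _ => ?_)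
  rw [mul_eq_one_iff_eq_inv', ← ofAdd_neg]

theorem not_isUnit (u : Leavitt k) (hu : u ∈ comp k (ofAdd (1 : ℤ))) : ¬ IsUnit u := by
  intro hunit
  obtain ⟨v, huv⟩ := hunit.exists_right_inv
  obtain ⟨a, ha, rfl⟩ : ∃ (a : E k) (ha : a ∈ grade k (toAdd (ofAdd (1 : ℤ)))),
      u = hom (ofAdd (1 : ℤ)) a ha := ⟨_, _, eq_hom hu⟩
  have h2 := hom_mul_coeff ha v
  rw [huv, coeff_one'] at h2
  have h3 := v.2 (ofAdd (-1 : ℤ))
  rw [toAdd_ofAdd] at h3
  exact no_unit h3 h2.symm

/-- **Main result.** For every field `k` (in the lowest universe) there are a group `G` and a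
strongly `G`-graded, `G`-controlled ring `R` which is not a `G`-crossed product: some component
contains no invertible element of `R`. -/
theorem result (k : Type) [Field k] : ∃ (G : Type) (_ : Group G) (R : Type) (_ : Ring R)
    (𝒜 : G → AddSubgroup R), IsGrading 𝒜 ∧ IsStrong 𝒜 ∧ IsControlled 𝒜 ∧
      ¬ IsCrossedProduct 𝒜 := by
  refine ⟨Multiplicative ℤ, inferInstance, Leavitt k, inferInstance, comp k, isGrading, isStrong,
    isControlled, ?_⟩
  intro h
  obtain ⟨u, hu, hu'⟩ := h (ofAdd 1)
  exact not_isUnit u hu hu'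

end Pool.Agent.Results.MP_26bbbf_al.NotCrossed
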